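import Pool.Agent.Helper51.AJ.St
import Pool.Agent.Helper51.AJ.Basic

/-! MODULE NFO of project AJ: the normal form of a `K₂,₃` minor. -/

set_option autoImplicit false

namespace Pool.Agent.Helper97.AJ

open Pool.Agent.Helper51.AJ

/-- a model of `K₂,₃` -/
private structure Md {V : Type} (B : SimpleGraph V) (U U' : Set V) (W : Fin 3 → Set V) : Prop where
  cU : Con B U
  cU' : Con B U'
  cW : ∀ i, Con B (W i)
  d : Disjoint U U'
  dU : ∀ i, Disjoint U (W i)
  dU' : ∀ i, Disjoint U' (W i)
  dW : ∀ i j, i ≠ j → Disjoint (W i) (W j)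
  tU : ∀ i, Tch B U (W i)
  tU' : ∀ i, Tch B U' (W i)

private theorem Md.swap {V : Type} {B : SimpleGraph V} {U U' : Set V} {W : Fin 3 → Set V}
    (h : Md B U U' W) : Md B U' U W :=
  ⟨h.cU', h.cU, h.cW, h.d.symm, h.dU', h.dU, h.dW, h.tU', h.tU⟩

private theorem md_of_minor {V : Type} {B : SimpleGraph V} (h : IsMinor K23 B) :
    ∃ (U U' : Set V) (W : Fin 3 → Set V), Md B U U' W := by
  obtain ⟨φ, h1, h2, h3⟩ := isMinor_gr' h
  refine ⟨φ 0, φ 1, ![φ 2, φ 3, φ 4], h1 0, h1 1, ?_, h2 0 1 (by decide), ?_, ?_, ?_, ?_, ?_⟩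
  · intro i
    fin_cases i <;> exact h1 _
  · intro i
    fin_cases i <;> exact h2 _ _ (by decide)
  · intro i
    fin_cases i <;> exact h2 _ _ (by decide)
  · intro i j hij
    fin_cases i <;> fin_cases j <;>
      first | exact absurd rfl hij | exact h2 _ _ (by decide)
  · intro i
    fin_cases i
    · exact h3 0 2 (by decide) (by decide)
    · exact h3 0 3 (by decide) (by decide)
    · exact h3 0 4 (by decide) (by decide)
  · intro i
    fin_cases i
    · exact h3 1 2 (by decide) (by decide)
    · exact h3 1 3 (by decide) (by decide)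
    · exact h3 1 4 (by decide) (by decide)

/-- a model with an uncovered vertex gives a model of `X2` -/
private theorem x2_of_md {V : Type} {B : SimpleGraph V} {U U' : Set V} {W : Fin 3 → Set V}
    (h : Md B U U' W) {z : V} (hU : z ∉ U) (hU' : z ∉ U') (hW : ∀ i, z ∉ W i) : IsMinor X2 B := by
  refine isMinor_gr ![U, U', W 0, W 1, W 2, {z}] ?_ ?_ ?_
  · intro i
    fin_cases i
    · exact h.cU
    · exact h.cU'
    · exact h.cW 0
    · exact h.cW 1
    · exact h.cW 2
    · exact con_singleton B z
  · intro i j hij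
    fin_cases i <;> fin_cases j <;>
      first
      | exact absurd hij (by decide)
      | exact h.d
      | exact h.dU 0
      | exact h.dU 1
      | exact h.dU 2
      | exact h.dU' 0
      | exact h.dU' 1
      | exact h.dU' 2
      | exact h.dW 0 1 (by decide)
      | exact h.dW 0 2 (by decide)
      | exact h.dW 1 2 (by decide)
      | exact Set.disjoint_singleton_right.2 hU
      | exact Set.disjoint_singleton_right.2 hU'
      | exact Set.disjoint_singleton_right.2 (hW 0)
      | exact Set.disjoint_singleton_right.2 (hW 1)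
      | exact Set.disjoint_singleton_right.2 (hW 2)
  · intro p hp h1 h2
    simp only [List.mem_cons, List.not_mem_nil, or_false] at hp
    rcases hp with rfl | rfl | rfl | rfl | rfl | rfl
    · exact h.tU 0
    · exact h.tU 1
    · exact h.tU 2
    · exact h.tU' 0
    · exact h.tU' 1
    · exact h.tU' 2

private theorem fin3 : ∀ j1 j2 : Fin 3, j1 ≠ j2 → ∃ k : Fin 3, ∀ j, j ≠ k → j = j1 ∨ j = j2 := by
  decide

/-- replacing one of the sets `W i` -/
private theorem md_update {V : Type} {B : SimpleGraph V} {U U' : Set V} {W : Fin 3 → Set V}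
    {U1 S : Set V} (i : Fin 3) (h : Md B U U' W) (hU1 : U1 ⊆ U) (cU1 : Con B U1) (cS : Con B S)
    (h1 : Disjoint U1 S) (h2 : Disjoint U' S) (h3 : ∀ j, j ≠ i → Disjoint (W j) S)
    (t1 : ∀ j, j ≠ i → Tch B U1 (W j)) (t2 : Tch B U1 S) (t3 : Tch B U' S) :
    Md B U1 U' (Function.update W i S) := by
  refine ⟨cU1, h.cU', ?_, h.d.mono_left hU1, ?_, ?_, ?_, ?_, ?_⟩
  · intro j
    by_cases hj : j = i
    · subst hj
      rw [Function.update_self]
      exact cS
    · rw [Function.update_of_ne hj]
      exact h.cW j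
  · intro j
    by_cases hj : j = i
    · subst hj
      rw [Function.update_self]
      exact h1
    · rw [Function.update_of_ne hj]
      exact (h.dU j).mono_left hU1
  · intro j
    by_cases hj : j = i
    · subst hj
      rw [Function.update_self]
      exact h2
    · rw [Function.update_of_ne hj]
      exact h.dU' j
  · intro j l hjl
    by_cases hj : j = i
    · subst hj
      rw [Function.update_self, Function.update_of_ne hjl.symm]
      exact (h3 l hjl.symm).symm
    · rw [Function.update_of_ne hj]
      by_cases hl : l = i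
      · subst hl
        rw [Function.update_self]
        exact h3 j hj
      · rw [Function.update_of_ne hl]
        exact h.dW j l hjl
  · intro j
    by_cases hj : j = i
    · subst hj
      rw [Function.update_self]
      exact t2
    · rw [Function.update_of_ne hj]
      exact t1 j hj
  · intro j
    by_cases hj : j = i
    · subst hj
      rw [Function.update_self]
      exact t3
    · rw [Function.update_of_ne hj]
      exact h.tU' j

/-- in a smallest model the set `U` is a point -/
private theorem md_single {V : Type} [Finite V] (hC : StCon) {B : SimpleGraph V} {U U' : Set V}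
    {W : Fin 3 → Set V} (h : Md B U U' W)
    (hmin : ∀ (U1 : Set V) (W1 : Fin 3 → Set V), Md B U1 U' W1 → U.ncard ≤ U1.ncard) :
    ∃ u, U = {u} := by
  obtain ⟨y, hy⟩ := con_nonempty h.cU
  by_contra hne
  have hne' : ∀ u, U ≠ {u} := fun u hu => hne ⟨u, hu⟩
  obtain ⟨c1, c2, -⟩ := hC V B U h.cU
  -- the set without `x` is smaller
  have hlt : ∀ x ∈ U, (U \ {x}).ncard < U.ncard := by
    intro x hx
    exact Set.ncard_diff_singleton_lt_of_mem hx
  have key : ∀ x ∈ U, Con B (U \ {x}) → ∀ i, ¬ ∀ j, j ≠ i → Tch B (U \ {x}) (W j) := by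
    intro x hx hcx i hall
    have hsub : U \ {x} ⊆ U := Set.diff_subset
    have hUx := hlt x hx
    by_cases hi : Tch B (U \ {x}) (W i)
    · have hm : Md B (U \ {x}) U' W :=
        ⟨hcx, h.cU', h.cW, h.d.mono_left hsub, fun j => (h.dU j).mono_left hsub, h.dU', h.dW,
          fun j => by
            by_cases hj : j = i
            · rw [hj]
              exact hi
            · exact hall j hj, h.tU'⟩
      have := hmin _ _ hm
      omega
    · have hx' : x ∉ U' := fun hx' => Set.disjoint_left.1 h.d hx hx'
      have hxW : ∀ j, x ∉ W j := fun j hj => Set.disjoint_left.1 (h.dU j) hx hj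
      have htx : Tch B {x} (W i) := by
        obtain ⟨a, ha, b, hb, hab⟩ := h.tU i
        by_cases hax : a = x
        · exact ⟨a, hax, b, hb, hab⟩
        · exact absurd ⟨a, ⟨ha, hax⟩, b, hb, hab⟩ hi
      have hm := md_update (S := W i ∪ {x}) i h hsub hcx
        (con_union (h.cW i) (con_singleton B x) (tch_symm htx)) (by
          rw [Set.disjoint_union_right]
          refine ⟨(h.dU i).mono_left hsub, ?_⟩
          rw [Set.disjoint_singleton_right]
          exact fun hxx => hxx.2 rfl) (by
          rw [Set.disjoint_union_right]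
          exact ⟨h.dU' i, Set.disjoint_singleton_right.2 hx'⟩) (by
          intro j hj
          rw [Set.disjoint_union_right]
          exact ⟨h.dW j i hj, Set.disjoint_singleton_right.2 (hxW j)⟩) hall (by
          have h3 := c1 {x} (Set.singleton_subset_iff.2 hx) (Set.singleton_nonempty x)
            (hne' x).symm
          exact tch_mono (tch_symm h3) subset_rfl Set.subset_union_right) (by
          exact tch_mono (h.tU' i) subset_rfl Set.subset_union_left)
      have := hmin _ _ hm
      omega
  obtain ⟨x, hxU, hxy, hcx⟩ := c2 y hy (hne' y)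
  obtain ⟨x', hx'U, hx'x, hcx'⟩ := c2 x hxU (hne' x)
  have k1 := key x hxU hcx
  have k2 := key x' hx'U hcx'
  obtain ⟨i, hi1, hi2⟩ : ∃ i, ¬ Tch B (U \ {x}) (W i) ∧ ¬ Tch B (U \ {x'}) (W i) := by
    by_contra hno
    push Not at hno
    obtain ⟨j1, hj1, hj1'⟩ : ∃ j, j ≠ 0 ∧ ¬ Tch B (U \ {x}) (W j) := by
      have := k1 0
      push Not at this
      exact this
    obtain ⟨j2, hj2, hj2'⟩ : ∃ j, j ≠ j1 ∧ ¬ Tch B (U \ {x}) (W j) := by
      have := k1 j1
      push Not at this
      exact this
    obtain ⟨k, hk⟩ := fin3 j1 j2 hj2.symm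
    apply k2 k
    intro j hj
    rcases hk j hj with rfl | rfl
    · exact hno _ hj1'
    · exact hno _ hj2'
  obtain ⟨a, ha, b, hb, hab⟩ := h.tU i
  by_cases hax : a = x
  · apply hi2
    refine ⟨a, ⟨ha, ?_⟩, b, hb, hab⟩
    rintro rfl
    exact hx'x hax
  · exact hi1 ⟨a, ⟨ha, hax⟩, b, hb, hab⟩

theorem hNFO (h1 : StCon) : StNfo := by
  intro V _ B hK hX
  classical
  -- a smallest model
  have hex : ∃ m : ℕ, ∃ (U U' : Set V) (W : Fin 3 → Set V), Md B U U' W ∧
      U.ncard + U'.ncard = m := by
    obtain ⟨U, U', W, h⟩ := md_of_minor hK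
    exact ⟨_, U, U', W, h, rfl⟩
  obtain ⟨U, U', W, h, hm⟩ := Nat.find_spec hex
  have hle : ∀ (U1 U1' : Set V) (W1 : Fin 3 → Set V), Md B U1 U1' W1 →
      U.ncard + U'.ncard ≤ U1.ncard + U1'.ncard := by
    intro U1 U1' W1 h2
    rw [hm]
    exact Nat.find_min' hex ⟨U1, U1', W1, h2, rfl⟩
  obtain ⟨u, rfl⟩ := md_single h1 h (fun U1 W1 h2 => by
    have := hle _ _ _ h2
    omega)
  obtain ⟨v, rfl⟩ := md_single h1 h.swap (fun U1 W1 h2 => by
    have := hle _ _ _ h2.swap
    omega)
  have nu : ∀ i, u ∉ W i := fun i => Set.disjoint_singleton_left.1 (h.dU i)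
  have nv : ∀ i, v ∉ W i := fun i => Set.disjoint_singleton_left.1 (h.dU' i)
  refine ⟨u, v, W, ?_, h.cW, h.dW, nu, nv, ?_, h.tU, h.tU', ?_⟩
  · intro he
    exact Set.disjoint_left.1 h.d (Set.mem_singleton u) he
  · intro z
    by_contra hz
    push Not at hz
    exact hX (x2_of_md h (z := z) hz.1 hz.2.1 hz.2.2)
  · intro i S hS hc hSu hSv
    by_contra hne
    obtain ⟨z, hz, hzS⟩ : ∃ z ∈ W i, z ∉ S := by
      by_contra hno
      push Not at hno
      exact hne (Set.Subset.antisymm hS hno)
    have hmd := md_update (S := S) i h subset_rfl h.cU hc ((h.dU i).mono_right hS)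
      ((h.dU' i).mono_right hS) (fun j hj => (h.dW j i hj).mono_right hS) (fun j _ => h.tU j)
      hSu hSv
    refine hX (x2_of_md hmd (z := z) ?_ ?_ ?_)
    · intro hzu
      rw [Set.mem_singleton_iff] at hzu
      rw [hzu] at hz
      exact nu i hz
    · intro hzv
      rw [Set.mem_singleton_iff] at hzv
      rw [hzv] at hz
      exact nv i hz
    · intro j
      by_cases hj : j = i
      · subst hj
        rw [Function.update_self]
        exact hzS
      · rw [Function.update_of_ne hj]
        exact fun hzj => Set.disjoint_left.1 (h.dW j i hj) hzj hz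

end Pool.Agent.Helper97.AJ
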